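import Mathlib
import Pool.Agent.Y214.HB.Stm

/-!
# Project HB: Hensel lifting of a smooth point of a form (written by helper70)
-/

set_option autoImplicit false

namespace Pool.Agent.Y70.HB

open Polynomial Filter Pool.Agent.Y214.HB

theorem deriv_aeval {m : ℕ} (a : Fin m → ℤ) (j : Fin m) (f : MvPolynomial (Fin m) ℤ) :
    derivative (MvPolynomial.aeval (Function.update (fun i => (C (a i) : ℤ[X])) j X) f) =
      MvPolynomial.aeval (Function.update (fun i => (C (a i) : ℤ[X])) j X)
        (MvPolynomial.pderiv j f) := by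
  classical
  induction f using MvPolynomial.induction_on with
  | C r =>
    rw [MvPolynomial.pderiv_C, map_zero, MvPolynomial.aeval_C]
    exact derivative_C
  | add p q hp hq => rw [map_add, map_add, map_add, map_add, hp, hq]
  | mul_X p i hp =>
    rw [map_mul, derivative_mul, hp, Derivation.leibniz, map_add, smul_eq_mul, smul_eq_mul, map_mul,
      map_mul, MvPolynomial.aeval_X, MvPolynomial.pderiv_X]
    by_cases hij : i = j
    · subst hij
      rw [Function.update_self, derivative_X, Pi.single_eq_same, map_one]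
      ring
    · rw [Function.update_of_ne hij, derivative_C, Pi.single_eq_of_ne hij, map_zero]
      ring

theorem aeval_cast {m : ℕ} {B : Type} [CommRing B] (a : Fin m → ℤ) (f : MvPolynomial (Fin m) ℤ) :
    MvPolynomial.aeval (fun i => ((a i : ℤ) : B)) f = ((MvPolynomial.eval a f : ℤ) : B) := by
  have h := MvPolynomial.comp_aeval_apply a (Algebra.ofId ℤ B) f
  have h1 : (MvPolynomial.aeval a f : ℤ) = MvPolynomial.eval a f := rfl
  rw [h1] at h
  exact h.symm

theorem dvd_of_homog {m e : ℕ} (g : MvPolynomial (Fin m) ℤ) (hg : g.IsHomogeneous e) (he : 1 ≤ e)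
    (p : ℤ) (a : Fin m → ℤ) (ha : ∀ i, p ∣ a i) : p ∣ MvPolynomial.eval a g := by
  rw [MvPolynomial.eval_eq']
  refine Finset.dvd_sum fun u hu => ?_
  have h1 : u.degree = e := by
    have := hg (MvPolynomial.mem_support_iff.1 hu)
    rw [Finsupp.degree_eq_weight_one]
    exact this
  have h2 : ∃ i, u i ≠ 0 := by
    by_contra h
    push Not at h
    have h3 : u = 0 := Finsupp.ext h
    rw [h3] at h1
    simp at h1
    omega
  obtain ⟨i, hi⟩ := h2
  exact Dvd.dvd.mul_left ((dvd_pow (ha i) hi).trans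
    (Finset.dvd_prod_of_mem (fun i => a i ^ u i) (Finset.mem_univ i))) _

theorem t_HEN : S_HEN := by
  classical
  intro n d f p _ a hd hf hT
  obtain ⟨h0, j, hj⟩ := hT
  obtain ⟨F, hF⟩ : ∃ F : ℤ[X],
      F = MvPolynomial.aeval (Function.update (fun i => (C (a i) : ℤ[X])) j X) f := ⟨_, rfl⟩
  have hev : ∀ (x : ℤ_[p]) (g : MvPolynomial (Fin (n + 1)) ℤ),
      Polynomial.aeval x (MvPolynomial.aeval (Function.update (fun i => (C (a i) : ℤ[X])) j X) g) =
      MvPolynomial.aeval (Function.update (fun i => ((a i : ℤ) : ℤ_[p])) j x) g := by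
    intro x g
    rw [MvPolynomial.comp_aeval_apply]
    congr 2
    funext i
    by_cases hij : i = j
    · rw [hij, Function.update_self, Function.update_self, Polynomial.aeval_X]
    · rw [Function.update_of_ne hij, Function.update_of_ne hij, Polynomial.aeval_C]
      rfl
  have hupd : Function.update (fun i => ((a i : ℤ) : ℤ_[p])) j ((a j : ℤ) : ℤ_[p]) =
      fun i => ((a i : ℤ) : ℤ_[p]) := Function.update_eq_self j _
  have e1 : Polynomial.aeval ((a j : ℤ) : ℤ_[p]) F = ((MvPolynomial.eval a f : ℤ) : ℤ_[p]) := by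
    rw [hF, hev, hupd, aeval_cast]
  have e2 : Polynomial.aeval ((a j : ℤ) : ℤ_[p]) (derivative F) =
      ((MvPolynomial.eval a (MvPolynomial.pderiv j f) : ℤ) : ℤ_[p]) := by
    rw [hF, deriv_aeval, hev, hupd, aeval_cast]
  have n1 : ‖Polynomial.aeval ((a j : ℤ) : ℤ_[p]) F‖ < 1 := by
    rw [e1]
    exact (PadicInt.norm_int_lt_one_iff_dvd _).2 h0
  have n2 : ‖Polynomial.aeval ((a j : ℤ) : ℤ_[p]) (derivative F)‖ = 1 := by
    rw [e2]
    refine le_antisymm (PadicInt.norm_le_one _) ?_
    by_contra h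
    exact hj ((PadicInt.norm_int_lt_one_iff_dvd _).1 (not_le.1 h))
  obtain ⟨z0, hz1, hz2, -⟩ := hensels_lemma (F := F) (a := ((a j : ℤ) : ℤ_[p]))
    (by rw [n2, one_pow]; exact n1)
  rw [n2] at hz2
  rw [hF, hev] at hz1
  have hcl : ∀ i, ‖((Function.update (fun i => ((a i : ℤ) : ℤ_[p])) j z0 i : ℤ_[p]) : ℚ_[p]) -
      (a i : ℚ_[p])‖ < 1 := by
    intro i
    by_cases hij : i = j
    · rw [hij, Function.update_self]
      have h1 : ((z0 : ℤ_[p]) : ℚ_[p]) - (a j : ℚ_[p]) =
          ((z0 - ((a j : ℤ) : ℤ_[p]) : ℤ_[p]) : ℚ_[p]) := by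
        push_cast
        rfl
      rw [h1, ← PadicInt.norm_def]
      exact hz2
    · rw [Function.update_of_ne hij]
      have h1 : (((a i : ℤ) : ℤ_[p]) : ℚ_[p]) = (a i : ℚ_[p]) := PadicInt.coe_intCast _
      rw [h1, sub_self, norm_zero]
      exact one_pos
  refine ⟨fun i => ((Function.update (fun i => ((a i : ℤ) : ℤ_[p])) j z0 i : ℤ_[p]) : ℚ_[p]),
    ?_, ?_, ?_, hcl⟩
  · intro hz
    refine hj (dvd_of_homog _ hf.pderiv (by omega) _ a fun i => ?_)
    have h1 := hcl i
    have h2 := congrFun hz i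
    rw [h2, Pi.zero_apply, zero_sub, norm_neg] at h1
    exact Padic.norm_intCast_lt_one_iff.1 h1
  · have h1 := MvPolynomial.comp_aeval_apply
      (Function.update (fun i => ((a i : ℤ) : ℤ_[p])) j z0)
      (PadicInt.Coe.ringHom (p := p)).toIntAlgHom f
    rw [hz1, map_zero] at h1
    exact h1.symm
  · rw [pi_norm_le_iff_of_nonneg zero_le_one]
    intro i
    rw [← PadicInt.norm_def]
    exact PadicInt.norm_le_one _

end Pool.Agent.Y70.HB
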